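import Mathlib

set_option autoImplicit false

open MeasureTheory Set Filter Topology

namespace Pool.Agent.Helper5.PG

/-- a weight on `[0,∞)`: continuous, positive, submultiplicative -/
structure IsWeight (w : ℝ → ℝ) : Prop where
  cont : ContinuousOn w (Ici 0)
  pos : ∀ t, 0 ≤ t → 0 < w t
  submul : ∀ s t, 0 ≤ s → 0 ≤ t → w (s + t) ≤ w s * w t

/-- radical weight: `w(t)^{1/t} → 0` -/
def IsRadical (w : ℝ → ℝ) : Prop := Tendsto (fun t : ℝ => (w t) ^ (1 / t)) atTop (𝓝 0)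

/-- `h` belongs to `L^1(w)` -/
def InL1 (w : ℝ → ℝ) (h : ℝ → ℂ) : Prop :=
  IntegrableOn (fun t : ℝ => h t * (w t : ℂ)) (Ioi 0)

/-- truncated convolution -/
noncomputable def cv (f g : ℝ → ℂ) (t : ℝ) : ℂ := ∫ s in (0:ℝ)..t, f (t - s) * g s

/-- convolution powers: `cpow f k = f^{*(k+1)}` -/
noncomputable def cpow (f : ℝ → ℂ) : ℕ → ℝ → ℂ
  | 0 => f
  | (k + 1) => cv f (cpow f k)

/-- `f` is a polynomial generator of `L^1(w)` -/
def IsPolyGen (w : ℝ → ℝ) (f : ℝ → ℂ) : Prop :=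
  InL1 w f ∧ ∀ h : ℝ → ℂ, InL1 w h → ∀ ε : ℝ, 0 < ε → ∃ (n : ℕ) (c : ℕ → ℂ),
    ∫⁻ t in Ioi (0:ℝ), ENNReal.ofReal (‖h t - ∑ k ∈ Finset.range n, c k * cpow f k t‖ * w t)
      < ENNReal.ofReal ε

/-- the function `t^{a-1} e^{ct}` -/
noncomputable def pw (a : ℝ) (c : ℂ) (t : ℝ) : ℂ := ((t ^ (a - 1) : ℝ) : ℂ) * Complex.exp (c * t)


end Pool.Agent.Helper5.PG
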