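import Mathlib
import Pool.Agent.Helper5.Pg.Defs

set_option autoImplicit false
open MeasureTheory Set Filter Topology

namespace Pool.Agent.Helper5.PG

theorem radical_bound (w : ℝ → ℝ) (hw : IsWeight w) (hr : IsRadical w) (m : ℝ) :
    ∃ K : ℝ, ∀ t : ℝ, 0 ≤ t → w t ≤ K * Real.exp (-(m * t)) := by
  have h1 : ∀ᶠ t : ℝ in atTop, (w t) ^ (1 / t) < Real.exp (-m) :=
    (tendsto_order.mp hr).2 _ (Real.exp_pos _)
  obtain ⟨T, hT⟩ := (h1.and (eventually_gt_atTop (0:ℝ))).exists_forall_of_atTop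
  obtain ⟨C, hC⟩ : ∃ C : ℝ, ∀ t ∈ Icc (0:ℝ) T, w t * Real.exp (m * t) ≤ C := by
    have hcont : ContinuousOn (fun t => w t * Real.exp (m * t)) (Icc 0 T) := by
      refine ContinuousOn.mul (hw.cont.mono Icc_subset_Ici_self) ?_
      fun_prop
    obtain ⟨C, hC⟩ := (isCompact_Icc.image_of_continuousOn hcont).bddAbove
    exact ⟨C, fun t ht => hC (mem_image_of_mem _ ht)⟩
  refine ⟨max C 1, fun t ht => ?_⟩
  have hexp : Real.exp (-(m * t)) * Real.exp (m * t) = 1 := by
    rw [← Real.exp_add]; simp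
  rcases le_or_gt T t with h | h
  · obtain ⟨h2, h3⟩ := hT t h
    have h4 : w t ≤ Real.exp (-(m * t)) := by
      have h5 : (w t ^ (1 / t)) ^ t = w t := by
        rw [← Real.rpow_mul (hw.pos t ht).le, one_div, inv_mul_cancel₀ h3.ne', Real.rpow_one]
      rw [← h5]
      have h6 : (w t ^ (1 / t)) ^ t ≤ (Real.exp (-m)) ^ t :=
        Real.rpow_le_rpow (Real.rpow_nonneg (hw.pos t ht).le _) h2.le h3.le
      refine le_trans h6 (le_of_eq ?_)
      rw [← Real.exp_mul]
      congr 1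
      ring
    calc w t ≤ Real.exp (-(m * t)) := h4
      _ = 1 * Real.exp (-(m * t)) := (one_mul _).symm
      _ ≤ max C 1 * Real.exp (-(m * t)) :=
          mul_le_mul_of_nonneg_right (le_max_right _ _) (Real.exp_pos _).le
  · have h2 := hC t ⟨ht, h.le⟩
    calc w t = (w t * Real.exp (m * t)) * Real.exp (-(m * t)) := by
          rw [mul_assoc, mul_comm (Real.exp (m * t)), hexp, mul_one]
      _ ≤ max C 1 * Real.exp (-(m * t)) :=
          mul_le_mul_of_nonneg_right (le_trans h2 (le_max_left _ _)) (Real.exp_pos _).le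

end Pool.Agent.Helper5.PG
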