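import Mathlib
import Pool.Agent.Helper5.Pg.Defs

set_option autoImplicit false
open MeasureTheory Set Filter Topology

namespace Pool.Agent.Helper5.PG

theorem cpow_pw (a : ℝ) (ha : 0 < a) (c : ℂ) (k : ℕ) :
    ∃ C : ℝ, 0 < C ∧ ∀ t : ℝ, 0 < t → cpow (pw a c) k t = (C : ℂ) * pw (a * (k + 1)) c t := by
  induction k with
  | zero =>
    refine ⟨1, one_pos, fun t ht => ?_⟩
    show pw a c t = _
    simp
  | succ k ih =>
    obtain ⟨C, hC, hk⟩ := ih
    set b : ℝ := a * (k + 1) with hb_def
    have hb : 0 < b := by positivity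
    have hab : a * ((k + 1 : ℕ) + 1 : ℝ) = b + a := by
      rw [hb_def]; push_cast; ring
    refine ⟨C * (Real.Gamma b * Real.Gamma a / Real.Gamma (b + a)), ?_, fun t ht => ?_⟩
    · have h1 := Real.Gamma_pos_of_pos hb
      have h2 := Real.Gamma_pos_of_pos ha
      have h3 := Real.Gamma_pos_of_pos (add_pos hb ha)
      positivity
    · show cv (pw a c) (cpow (pw a c) k) t = _
      unfold cv
      have h1 : ∫ s in (0:ℝ)..t, pw a c (t - s) * cpow (pw a c) k s =
          ∫ s in (0:ℝ)..t, ((C : ℂ) * Complex.exp (c * t)) *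
            ((s : ℂ) ^ ((b : ℂ) - 1) * ((t : ℂ) - s) ^ ((a : ℂ) - 1)) := by
        rw [intervalIntegral.integral_of_le ht.le, intervalIntegral.integral_of_le ht.le,
          MeasureTheory.integral_Ioc_eq_integral_Ioo, MeasureTheory.integral_Ioc_eq_integral_Ioo]
        apply MeasureTheory.setIntegral_congr_fun measurableSet_Ioo
        intro s hs
        simp only []
        rw [hk s hs.1]
        unfold pw
        have e1 : (((t - s) ^ (a - 1) : ℝ) : ℂ) = ((t : ℂ) - s) ^ ((a : ℂ) - 1) := by
          rw [Complex.ofReal_cpow (sub_nonneg.mpr hs.2.le)]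
          push_cast
          rfl
        have e2 : ((s ^ (b - 1) : ℝ) : ℂ) = (s : ℂ) ^ ((b : ℂ) - 1) := by
          rw [Complex.ofReal_cpow hs.1.le]
          push_cast
          rfl
        rw [e1, e2]
        have e3 : Complex.exp (c * t) = Complex.exp (c * ((t - s : ℝ) : ℂ)) * Complex.exp (c * s) := by
          rw [← Complex.exp_add]
          congr 1
          push_cast
          ring
        rw [e3]
        ring
      rw [h1, intervalIntegral.integral_const_mul, Complex.betaIntegral_scaled (b : ℂ) (a : ℂ) ht]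
      have h2 : Complex.betaIntegral (b : ℂ) (a : ℂ) =
          ((Real.Gamma b * Real.Gamma a / Real.Gamma (b + a) : ℝ) : ℂ) := by
        have h3 := Complex.Gamma_mul_Gamma_eq_betaIntegral (s := (b : ℂ)) (t := (a : ℂ))
          (by simpa using hb) (by simpa using ha)
        have h4 : Complex.Gamma ((b : ℂ) + (a : ℂ)) ≠ 0 := by
          rw [← Complex.ofReal_add, Complex.Gamma_ofReal]
          exact_mod_cast (Real.Gamma_pos_of_pos (add_pos hb ha)).ne'
        have h5 : Complex.betaIntegral (b : ℂ) (a : ℂ) =
            Complex.Gamma b * Complex.Gamma a / Complex.Gamma ((b : ℂ) + a) := by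
          rw [h3]
          field_simp
        rw [h5, ← Complex.ofReal_add, Complex.Gamma_ofReal, Complex.Gamma_ofReal,
          Complex.Gamma_ofReal]
        push_cast
        rfl
      rw [h2]
      unfold pw
      rw [hab]
      have e4 : ((t ^ (b + a - 1) : ℝ) : ℂ) = (t : ℂ) ^ ((b : ℂ) + a - 1) := by
        rw [Complex.ofReal_cpow ht.le]
        push_cast
        rfl
      rw [e4]
      push_cast
      ring

end Pool.Agent.Helper5.PG
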