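import Mathlib
import Pool.Agent.Helper5.Pg.Defs

set_option autoImplicit false
open MeasureTheory Set Filter Topology

namespace Pool.Agent.Helper5.PG

theorem moment_det (μ ν : Measure ℝ) [IsFiniteMeasure μ] [IsFiniteMeasure ν] (δ : ℝ) (hδ : 0 < δ)
    (hμ : Integrable (fun y : ℝ => Real.exp (δ * |y|)) μ)
    (hν : Integrable (fun y : ℝ => Real.exp (δ * |y|)) ν)
    (h : ∀ n : ℕ, ∫ y, y ^ n ∂μ = ∫ y, y ^ n ∂ν) : μ = ν := by
  have hsub : ∀ (ρ : Measure ℝ), Integrable (fun y : ℝ => Real.exp (δ * |y|)) ρ →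
      Ioo (-δ) δ ⊆ interior (ProbabilityTheory.integrableExpSet id ρ) := by
    intro ρ hρ
    apply interior_maximal _ isOpen_Ioo
    intro t ht
    show Integrable (fun y : ℝ => Real.exp (t * id y)) ρ
    refine hρ.mono' (by fun_prop) (Eventually.of_forall fun y => ?_)
    rw [Real.norm_of_nonneg (Real.exp_pos _).le]
    apply Real.exp_le_exp.2
    calc t * id y ≤ |t * y| := le_abs_self _
      _ = |t| * |y| := abs_mul _ _
      _ ≤ δ * |y| := mul_le_mul_of_nonneg_right (abs_lt.2 ht).le (abs_nonneg _)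
  have hμs := hsub μ hμ
  have hνs := hsub ν hν
  have h0 : (0 : ℝ) ∈ Ioo (-δ) δ := ⟨by linarith, hδ⟩
  set S : Set ℂ := {z : ℂ | z.re ∈ Ioo (-δ) δ} with hS
  have hSpre : IsPreconnected S := by
    have hc : Convex ℝ S := (convex_Ioo (-δ) δ).linear_preimage Complex.reLm
    exact hc.isPreconnected
  have haμ : AnalyticOnNhd ℂ (ProbabilityTheory.complexMGF id μ) S := fun z hz =>
    ProbabilityTheory.analyticAt_complexMGF (hμs hz)
  have haν : AnalyticOnNhd ℂ (ProbabilityTheory.complexMGF id ν) S := fun z hz =>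
    ProbabilityTheory.analyticAt_complexMGF (hνs hz)
  have h0S : (0 : ℂ) ∈ S := by
    show (0 : ℂ).re ∈ Ioo (-δ) δ
    rw [Complex.zero_re]
    exact h0
  have hder : ∀ n, iteratedDeriv n (ProbabilityTheory.complexMGF id μ) 0 =
      iteratedDeriv n (ProbabilityTheory.complexMGF id ν) 0 := by
    intro n
    rw [ProbabilityTheory.iteratedDeriv_complexMGF (hμs h0S),
      ProbabilityTheory.iteratedDeriv_complexMGF (hνs h0S)]
    have e : ∀ ρ : Measure ℝ, ∫ ω : ℝ, ((id ω : ℝ) : ℂ) ^ n * Complex.exp (0 * ((id ω : ℝ) : ℂ)) ∂ρ =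
        ((∫ y, y ^ n ∂ρ : ℝ) : ℂ) := by
      intro ρ
      rw [← integral_complex_ofReal]
      congr 1
      ext y
      simp
    rw [e μ, e ν, h n]
  have hev : ProbabilityTheory.complexMGF id μ =ᶠ[𝓝 0] ProbabilityTheory.complexMGF id ν := by
    have p1 := (haμ 0 h0S).hasFPowerSeriesAt
    have p2 := (haν 0 h0S).hasFPowerSeriesAt
    simp only [hder] at p1
    have p3 := p1.sub p2
    rw [sub_self] at p3
    have p4 := p3.eventually_eq_zero
    filter_upwards [p4] with z hz
    exact sub_eq_zero.1 hz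
  have heq := haμ.eqOn_of_preconnected_of_eventuallyEq haν hSpre h0S hev
  apply Measure.ext_of_charFun
  ext t
  rw [← ProbabilityTheory.complexMGF_id_mul_I, ← ProbabilityTheory.complexMGF_id_mul_I]
  apply heq
  show ((t : ℂ) * Complex.I).re ∈ Ioo (-δ) δ
  have : ((t : ℂ) * Complex.I).re = 0 := by simp
  rw [this]
  exact h0

end Pool.Agent.Helper5.PG
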