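import Mathlib
import Pool.Agent.Helper5.Pg.Defs
import Pool.Agent.Helper5.Pg.MomentDet

set_option autoImplicit false
open MeasureTheory Set Filter Topology

namespace Pool.Agent.Helper5.PG

private theorem odd_unique_aux (μ : Measure ℝ) [IsFiniteMeasure μ] (g φ : ℝ → ℝ)
    (hg : AEStronglyMeasurable g μ) (hφ : Continuous φ)
    (h : Integrable (fun y => g y * φ y) μ) :
    Integrable φ (μ.withDensity (fun y => ENNReal.ofReal (g y))) ∧
      ∫ y, φ y ∂(μ.withDensity (fun y => ENNReal.ofReal (g y))) = ∫ y, max (g y) 0 * φ y ∂μ ∧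
      Integrable (fun y => max (g y) 0 * φ y) μ := by
  have hm : AEMeasurable (fun y => ENNReal.ofReal (g y)) μ := hg.aemeasurable.ennreal_ofReal
  have hlt : ∀ᵐ y ∂μ, ENNReal.ofReal (g y) < ⊤ := Filter.Eventually.of_forall fun y => ENNReal.ofReal_lt_top
  have h3 : Integrable (fun y => max (g y) 0 * φ y) μ := by
    refine h.mono ?_ ?_
    · exact (hg.aemeasurable.max aemeasurable_const).aestronglyMeasurable.mul
        hφ.aestronglyMeasurable
    · refine Filter.Eventually.of_forall fun y => ?_
      rw [norm_mul, norm_mul]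
      refine mul_le_mul_of_nonneg_right ?_ (norm_nonneg _)
      rw [Real.norm_eq_abs, Real.norm_eq_abs]
      rcases le_total (g y) 0 with h0 | h0
      · rw [max_eq_right h0]; simp
      · rw [max_eq_left h0]
  refine ⟨?_, ?_, h3⟩
  · rw [integrable_withDensity_iff_integrable_smul₀' hm hlt]
    simpa [ENNReal.toReal_ofReal', smul_eq_mul] using h3
  · rw [integral_withDensity_eq_integral_toReal_smul₀ hm hlt]
    simp [ENNReal.toReal_ofReal', smul_eq_mul]

theorem odd_unique (μ : Measure ℝ) [IsFiniteMeasure μ] (hμ0 : μ (Iic 0) = 0) (δ : ℝ) (hδ : 0 < δ)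
    (hμ : Integrable (fun y : ℝ => Real.exp (δ * y)) μ) (g : ℝ → ℝ) (hg : MemLp g 2 μ)
    (hm : ∀ k : ℕ, ∫ y, y ^ (2 * k + 1) * g y ∂μ = 0) : g =ᵐ[μ] 0 := by
  have hgi : Integrable g μ := hg.integrable (by norm_num)
  have hpos : ∀ᵐ y ∂μ, 0 < y := by
    rw [ae_iff]
    have : {a : ℝ | ¬ 0 < a} = Iic 0 := by ext a; simp
    rw [this]; exact hμ0
  set μp := μ.withDensity (fun y => ENNReal.ofReal (g y)) with hμp
  set μm := μ.withDensity (fun y => ENNReal.ofReal (-g y)) with hμm
  haveI : IsFiniteMeasure μp := isFiniteMeasure_withDensity_ofReal hgi.2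
  haveI : IsFiniteMeasure μm := isFiniteMeasure_withDensity_ofReal hgi.neg.2
  have hEc : Continuous (fun y : ℝ => Real.exp (δ / 2 * |y|)) := by fun_prop
  have hE : MemLp (fun y : ℝ => Real.exp (δ / 2 * |y|)) 2 μ := by
    rw [memLp_two_iff_integrable_sq hEc.aestronglyMeasurable]
    refine hμ.congr ?_
    filter_upwards [hpos] with y hy
    rw [abs_of_pos hy, ← Real.exp_nat_mul]
    congr 1; push_cast; ring
  have hgE : Integrable (fun y => g y * Real.exp (δ / 2 * |y|)) μ := hg.integrable_mul hE
  have hgn : ∀ n : ℕ, Integrable (fun y => g y * y ^ n) μ := by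
    intro n
    refine (hgE.const_mul ((n.factorial : ℝ) / (δ / 2) ^ n)).mono ?_ ?_
    · exact hgi.1.mul (by fun_prop)
    · refine Filter.Eventually.of_forall fun y => ?_
      have h1 := Real.pow_div_factorial_le_exp (δ / 2 * |y|) (by positivity) n
      have hf : (0:ℝ) < n.factorial := by positivity
      have hd : (0:ℝ) < (δ / 2) ^ n := by positivity
      have h2 : |y| ^ n ≤ (n.factorial : ℝ) / (δ / 2) ^ n * Real.exp (δ / 2 * |y|) := by
        rw [mul_pow, div_le_iff₀ hf] at h1
        rw [div_mul_eq_mul_div, le_div_iff₀ hd]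
        linarith
      rw [norm_mul, norm_mul, norm_mul, Real.norm_eq_abs (y ^ n), abs_pow,
        Real.norm_of_nonneg (Real.exp_pos _).le,
        Real.norm_of_nonneg (by positivity : (0:ℝ) ≤ (n.factorial : ℝ) / (δ / 2) ^ n)]
      calc ‖g y‖ * |y| ^ n ≤ ‖g y‖ * ((n.factorial : ℝ) / (δ / 2) ^ n * Real.exp (δ / 2 * |y|)) :=
            mul_le_mul_of_nonneg_left h2 (norm_nonneg _)
        _ = _ := by ring
  have negm : Measurable (fun y : ℝ => -y) := measurable_neg
  have key : μp + μm.map (fun y => -y) = μm + μp.map (fun y => -y) := by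
    have ngE : Integrable (fun y => (-g y) * Real.exp (δ / 2 * |y|)) μ := by
      simpa [neg_mul] using hgE.neg
    have ngn : ∀ n : ℕ, Integrable (fun y => (-g y) * y ^ n) μ := by
      intro n; simpa [neg_mul] using (hgn n).neg
    obtain ⟨a1, a2, a3⟩ := odd_unique_aux μ g _ hgi.1 hEc hgE
    obtain ⟨b1, b2, b3⟩ := odd_unique_aux μ (fun y => -g y) _ hgi.neg.1 hEc ngE
    have Emap : ∀ ν : Measure ℝ, Integrable (fun y : ℝ => Real.exp (δ / 2 * |y|)) ν →
        Integrable (fun y : ℝ => Real.exp (δ / 2 * |y|)) (ν.map (fun y => -y)) := by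
      intro ν hν
      rw [integrable_map_measure hEc.aestronglyMeasurable negm.aemeasurable]
      simpa [Function.comp_def] using hν
    refine moment_det _ _ (δ / 2) (by positivity) ((a1.add_measure (Emap _ b1)))
      ((b1.add_measure (Emap _ a1))) ?_
    intro n
    have hc : Continuous (fun y : ℝ => y ^ n) := by fun_prop
    obtain ⟨c1, c2, c3⟩ := odd_unique_aux μ g _ hgi.1 hc (hgn n)
    obtain ⟨d1, d2, d3⟩ := odd_unique_aux μ (fun y => -g y) _ hgi.neg.1 hc (ngn n)
    have nmap : ∀ ν : Measure ℝ, Integrable (fun y : ℝ => y ^ n) ν →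
        Integrable (fun y : ℝ => y ^ n) (ν.map (fun y => -y)) := by
      intro ν hν
      rw [integrable_map_measure hc.aestronglyMeasurable negm.aemeasurable]
      have := hν.const_mul ((-1) ^ n)
      refine this.congr (Filter.Eventually.of_forall fun y => ?_)
      simp only [Function.comp_def]
      rw [← mul_pow]; ring
    have nint : ∀ ν : Measure ℝ, ∫ y, y ^ n ∂(ν.map (fun y => -y)) = (-1) ^ n * ∫ y, y ^ n ∂ν := by
      intro ν
      rw [integral_map negm.aemeasurable hc.aestronglyMeasurable, ← integral_const_mul]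
      refine integral_congr_ae (Filter.Eventually.of_forall fun y => ?_)
      show (-y) ^ n = (-1) ^ n * y ^ n
      rw [← mul_pow]; ring
    rw [integral_add_measure c1 (nmap _ d1), integral_add_measure d1 (nmap _ c1), nint, nint,
      c2, d2]
    have hdiff : ∫ y, max (g y) 0 * y ^ n ∂μ - ∫ y, max (-g y) 0 * y ^ n ∂μ
        = ∫ y, g y * y ^ n ∂μ := by
      rw [← integral_sub c3 d3]
      refine integral_congr_ae (Filter.Eventually.of_forall fun y => ?_)
      show max (g y) 0 * y ^ n - max (-g y) 0 * y ^ n = g y * y ^ n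
      rw [← sub_mul]
      congr 1
      rcases le_total (g y) 0 with h0 | h0
      · rw [max_eq_right h0, max_eq_left (by linarith)]; ring
      · rw [max_eq_left h0, max_eq_right (by linarith)]; ring
    rcases Nat.even_or_odd n with he | ho
    · rw [he.neg_one_pow]; ring
    · rw [ho.neg_one_pow]
      obtain ⟨k, rfl⟩ := ho
      have h0 : ∫ y, g y * y ^ (2 * k + 1) ∂μ = 0 := by
        rw [← hm k]
        refine integral_congr_ae (Filter.Eventually.of_forall fun y => ?_)
        show g y * y ^ (2 * k + 1) = y ^ (2 * k + 1) * g y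
        ring
      rw [h0] at hdiff
      linarith
  -- restrict
  have hp0 : μp (Iic 0) = 0 := withDensity_absolutelyContinuous _ _ hμ0
  have hm0 : μm (Iic 0) = 0 := withDensity_absolutelyContinuous _ _ hμ0
  have heq : μp = μm := by
    ext s hs
    have hT : MeasurableSet (s ∩ Ioi 0) := hs.inter measurableSet_Ioi
    have h1 := congrArg (fun ν : Measure ℝ => ν (s ∩ Ioi 0)) key
    simp only [Measure.add_apply] at h1
    rw [Measure.map_apply negm hT, Measure.map_apply negm hT] at h1
    have hsub : (fun y : ℝ => -y) ⁻¹' (s ∩ Ioi 0) ⊆ Iic 0 := by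
      intro y hy
      have : 0 < -y := hy.2
      simp only [mem_Iic]; linarith
    rw [measure_mono_null hsub hm0, measure_mono_null hsub hp0, add_zero, add_zero] at h1
    have split : ∀ ν : Measure ℝ, ν (Iic 0) = 0 → ν s = ν (s ∩ Ioi 0) := by
      intro ν hν
      refine (measure_inter_conull ?_).symm
      have : (Ioi (0:ℝ))ᶜ = Iic 0 := by simp
      refine measure_mono_null ?_ hν
      intro y hy
      simpa using hy
    rw [split μp hp0, split μm hm0]; exact h1
  have hlint : ∫⁻ y, ENNReal.ofReal (g y) ∂μ ≠ ⊤ := by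
    have := (isFiniteMeasure_withDensity_ofReal hgi.2 : IsFiniteMeasure μp)
    have h2 : μp univ ≠ ⊤ := measure_ne_top _ _
    rwa [hμp, withDensity_apply _ MeasurableSet.univ, Measure.restrict_univ] at h2
  have hae := (withDensity_eq_iff hgi.1.aemeasurable.ennreal_ofReal
    hgi.neg.1.aemeasurable.ennreal_ofReal hlint).1 heq
  filter_upwards [hae] with y hy
  simp only [Pi.neg_apply] at hy
  show g y = 0
  rcases lt_trichotomy (g y) 0 with h0 | h0 | h0
  · rw [ENNReal.ofReal_of_nonpos h0.le] at hy
    have := ENNReal.ofReal_pos.2 (by linarith : 0 < -g y)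
    rw [← hy] at this; exact absurd this (lt_irrefl _)
  · exact h0
  · rw [ENNReal.ofReal_of_nonpos (by linarith : -g y ≤ 0)] at hy
    have := ENNReal.ofReal_pos.2 h0
    rw [hy] at this; exact absurd this (lt_irrefl _)

end Pool.Agent.Helper5.PG
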