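import Mathlib
import Pool.Agent.Helper5.Pg.Defs
import Pool.Agent.Helper5.Pg.L2OddDense

set_option autoImplicit false
open MeasureTheory Set Filter Topology

namespace Pool.Agent.Helper5.PG

theorem odd_dense (W : ℝ → ℝ) (hW : ContinuousOn W (Ioi 0)) (hpos : ∀ y, 0 < y → 0 < W y)
    (δ K : ℝ) (hδ : 0 < δ) (hb : ∀ y, 0 < y → W y ≤ K * Real.exp (-(δ * y)))
    (H : ℝ → ℂ) (hH : IntegrableOn (fun y : ℝ => H y * (W y : ℂ)) (Ioi 0))
    (ε : ℝ) (hε : 0 < ε) :
    ∃ (n : ℕ) (c : ℕ → ℂ),
      IntegrableOn (fun y : ℝ =>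
        ‖H y - ∑ k ∈ Finset.range n, c k * (y : ℂ) ^ (2 * k + 1)‖ * W y) (Ioi 0) ∧
      ∫ y in Ioi (0:ℝ), ‖H y - ∑ k ∈ Finset.range n, c k * (y : ℂ) ^ (2 * k + 1)‖ * W y < ε := by
  have hWm : AEMeasurable W (volume.restrict (Ioi (0:ℝ))) := hW.aemeasurable measurableSet_Ioi
  have hKpos : 0 < K := by
    have h1 := hpos 1 one_pos
    have h2 := hb 1 one_pos
    by_contra hK
    push Not at hK
    have := mul_nonpos_of_nonpos_of_nonneg hK (Real.exp_pos (-(δ*1))).le
    linarith
  have hWI : ∀ c, c < δ → IntegrableOn (fun y => Real.exp (c * y) * W y) (Ioi 0) := by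
    intro c hc
    have h1 : IntegrableOn (fun y => K * Real.exp (-(δ - c) * y)) (Ioi 0) :=
      (exp_neg_integrableOn_Ioi 0 (sub_pos.2 hc)).const_mul K
    refine Integrable.mono' h1 ?_ ?_
    · exact ((by fun_prop : Measurable fun y : ℝ => Real.exp (c * y)).aemeasurable.mul
        hWm).aestronglyMeasurable
    · filter_upwards [ae_restrict_mem measurableSet_Ioi] with y hy
      have hWy := hpos y hy
      rw [Real.norm_of_nonneg (by positivity)]
      calc Real.exp (c * y) * W y ≤ Real.exp (c * y) * (K * Real.exp (-(δ * y))) :=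
            mul_le_mul_of_nonneg_left (hb y hy) (Real.exp_pos _).le
        _ = K * (Real.exp (c * y) * Real.exp (-(δ * y))) := by ring
        _ = _ := by rw [← Real.exp_add]; congr 2; ring
  set ν : Measure ℝ := (volume.restrict (Ioi (0:ℝ))).withDensity (fun y => ENNReal.ofReal (W y)) with hν
  set μ : Measure ℝ := (volume.restrict (Ioi (0:ℝ))).withDensity
    (fun y => ENNReal.ofReal (Real.exp (δ / 2 * y) * W y)) with hμ
  have hμm : AEMeasurable (fun y => ENNReal.ofReal (Real.exp (δ / 2 * y) * W y))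
      (volume.restrict (Ioi (0:ℝ))) :=
    ((by fun_prop : Measurable fun y : ℝ => Real.exp (δ / 2 * y)).aemeasurable.mul
        hWm).ennreal_ofReal
  have hνm : AEMeasurable (fun y => ENNReal.ofReal (W y)) (volume.restrict (Ioi (0:ℝ))) :=
    hWm.ennreal_ofReal
  have hνμ : ν ≤ μ := by
    apply withDensity_mono
    filter_upwards [ae_restrict_mem measurableSet_Ioi] with y hy
    apply ENNReal.ofReal_le_ofReal
    have hWy := hpos y hy
    have hy' : (0:ℝ) < y := hy
    have : 1 ≤ Real.exp (δ / 2 * y) := Real.one_le_exp (by positivity)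
    nlinarith
  haveI hμf : IsFiniteMeasure μ :=
    isFiniteMeasure_withDensity_ofReal (hWI (δ / 2) (by linarith)).hasFiniteIntegral
  haveI hνf : IsFiniteMeasure ν := isFiniteMeasure_of_le μ hνμ
  have hμ0 : μ (Iic 0) = 0 := by
    apply withDensity_absolutelyContinuous (volume.restrict (Ioi (0:ℝ))) _
    rw [Measure.restrict_apply measurableSet_Iic]
    have : Iic (0:ℝ) ∩ Ioi 0 = ∅ := by
      ext y; simp
    rw [this, measure_empty]
  have hμe : Integrable (fun y : ℝ => Real.exp (δ / 4 * y)) μ := by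
    rw [hμ, integrable_withDensity_iff_integrable_smul₀' hμm
      (Eventually.of_forall fun y => ENNReal.ofReal_lt_top)]
    refine (hWI (3 * δ / 4) (by linarith)).congr ?_
    filter_upwards [ae_restrict_mem measurableSet_Ioi] with y hy
    have hWy := hpos y hy
    rw [ENNReal.toReal_ofReal (by positivity), smul_eq_mul]
    calc Real.exp (3 * δ / 4 * y) * W y = (Real.exp (δ / 2 * y) * Real.exp (δ / 4 * y)) * W y := by
          rw [← Real.exp_add]; congr 2; ring
      _ = _ := by ring
  have hconv : ∀ g : ℝ → ℂ, Integrable g ν → IntegrableOn (fun y => ‖g y‖ * W y) (Ioi 0) ∧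
      ENNReal.ofReal (∫ y in Ioi (0:ℝ), ‖g y‖ * W y) = eLpNorm g 1 ν := by
    intro g hg
    have h1 := hg.norm
    have h2 : ∫ y, ‖g y‖ ∂ν = ∫ y in Ioi (0:ℝ), ‖g y‖ * W y := by
      rw [hν, integral_withDensity_eq_integral_toReal_smul₀ hνm
        (Eventually.of_forall fun y => ENNReal.ofReal_lt_top)]
      apply integral_congr_ae
      filter_upwards [ae_restrict_mem measurableSet_Ioi] with y hy
      rw [ENNReal.toReal_ofReal (hpos y hy).le, smul_eq_mul, mul_comm]
    refine ⟨?_, ?_⟩
    · rw [hν, integrable_withDensity_iff_integrable_smul₀' hνm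
        (Eventually.of_forall fun y => ENNReal.ofReal_lt_top)] at h1
      refine h1.congr ?_
      filter_upwards [ae_restrict_mem measurableSet_Ioi] with y hy
      rw [ENNReal.toReal_ofReal (hpos y hy).le, smul_eq_mul, mul_comm]
    · rw [← h2, eLpNorm_one_eq_lintegral_enorm, ofReal_integral_norm_eq_lintegral_enorm hg]
  have hHν : Integrable H ν := by
    rw [hν, integrable_withDensity_iff_integrable_smul₀' hνm
      (Eventually.of_forall fun y => ENNReal.ofReal_lt_top)]
    refine hH.congr ?_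
    filter_upwards [ae_restrict_mem measurableSet_Ioi] with y hy
    rw [ENNReal.toReal_ofReal (hpos y hy).le, Complex.real_smul, mul_comm]
  obtain ⟨s, hs, hsm⟩ := (memLp_one_iff_integrable.2 hHν).exists_simpleFunc_eLpNorm_sub_lt
    ENNReal.one_ne_top (ε := ENNReal.ofReal (ε / 2)) (by simp; positivity)
  set C : ℝ := ((μ Set.univ) ^ ((1:ℝ) / 2)).toReal with hC
  have hCtop : (μ Set.univ) ^ ((1:ℝ) / 2) ≠ ⊤ :=
    ENNReal.rpow_ne_top_of_nonneg (by norm_num) (measure_ne_top _ _)
  have hC0 : 0 ≤ C := ENNReal.toReal_nonneg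
  have hε' : 0 < (ε / 2) / (C + 1) := by positivity
  obtain ⟨n, c, hP⟩ := l2_odd_dense μ hμ0 (δ / 4) (by positivity) hμe s
    (s.memLp_of_isFiniteMeasure 2 μ) _ hε'
  set P : ℝ → ℂ := fun y => ∑ k ∈ Finset.range n, c k * (y : ℂ) ^ (2 * k + 1) with hPdef
  have hPc : Continuous P := by rw [hPdef]; fun_prop
  have hsP : AEStronglyMeasurable (fun y => s y - P y) μ :=
    s.aestronglyMeasurable.sub hPc.aestronglyMeasurable
  have hsP1 : eLpNorm (fun y => s y - P y) 1 ν < ENNReal.ofReal (ε / 2) := by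
    calc eLpNorm (fun y => s y - P y) 1 ν ≤ eLpNorm (fun y => s y - P y) 1 μ :=
          eLpNorm_mono_measure _ hνμ
      _ ≤ eLpNorm (fun y => s y - P y) 2 μ *
          μ Set.univ ^ (1 / (1:ENNReal).toReal - 1 / (2:ENNReal).toReal) :=
          eLpNorm_le_eLpNorm_mul_rpow_measure_univ (by norm_num) hsP
      _ = eLpNorm (fun y => s y - P y) 2 μ * ENNReal.ofReal C := by
          rw [hC, ENNReal.ofReal_toReal hCtop]
          congr 2
          norm_num
      _ ≤ ENNReal.ofReal ((ε / 2) / (C + 1)) * ENNReal.ofReal C := by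
          gcongr
      _ = ENNReal.ofReal ((ε / 2) / (C + 1) * C) := (ENNReal.ofReal_mul hε'.le).symm
      _ < ENNReal.ofReal (ε / 2) := by
          rw [ENNReal.ofReal_lt_ofReal_iff (by positivity), div_mul_eq_mul_div,
            div_lt_iff₀ (by positivity)]
          nlinarith
  have hsPi : Integrable (fun y => s y - P y) ν :=
    memLp_one_iff_integrable.1 ⟨s.aestronglyMeasurable.sub hPc.aestronglyMeasurable,
      hsP1.trans ENNReal.ofReal_lt_top⟩
  have hHs : Integrable (fun y => H y - s y) ν := hHν.sub (memLp_one_iff_integrable.1 hsm)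
  have hHP : Integrable (fun y => H y - P y) ν := by
    refine (hHs.add hsPi).congr (Eventually.of_forall fun y => ?_)
    simp only [Pi.add_apply]; ring
  obtain ⟨h1, h2⟩ := hconv _ hHP
  refine ⟨n, c, h1, ?_⟩
  have h3 : eLpNorm (fun y => H y - P y) 1 ν < ENNReal.ofReal ε := by
    have h4 : (fun y => H y - P y) = (fun y => H y - s y) + fun y => s y - P y := by
      funext y; simp only [Pi.add_apply]; ring
    rw [h4]
    calc _ ≤ eLpNorm (fun y => H y - s y) 1 ν + eLpNorm (fun y => s y - P y) 1 ν :=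
          eLpNorm_add_le hHs.aestronglyMeasurable hsPi.aestronglyMeasurable le_rfl
      _ < ENNReal.ofReal (ε / 2) + ENNReal.ofReal (ε / 2) := ENNReal.add_lt_add hs hsP1
      _ = ENNReal.ofReal ε := by
          rw [← ENNReal.ofReal_add (by positivity) (by positivity)]
          congr 1; ring
  rw [← h2, ENNReal.ofReal_lt_ofReal_iff hε] at h3
  exact h3

end Pool.Agent.Helper5.PG
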