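import Mathlib
import Pool.Agent.Helper5.Pg.Defs
import Pool.Agent.Helper5.Pg.CpowPw
import Pool.Agent.Helper5.Pg.OddDense

set_option autoImplicit false
open MeasureTheory Set Filter Topology

namespace Pool.Agent.Helper5.PG

theorem gob_norm_pw (a : ℝ) (c : ℂ) (t : ℝ) (ht : 0 < t) :
    ‖pw a c t‖ = t ^ (a - 1) * Real.exp (c.re * t) := by
  unfold pw
  rw [norm_mul, Complex.norm_real, Real.norm_of_nonneg (by positivity), Complex.norm_exp]
  congr 2
  simp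

theorem gob_pw_cont (a : ℝ) (c : ℂ) : ContinuousOn (pw a c) (Ioi 0) := by
  unfold pw
  refine ContinuousOn.mul ?_ (by fun_prop)
  refine Complex.continuous_ofReal.comp_continuousOn ?_
  exact ContinuousOn.rpow_const continuousOn_id (fun x hx => Or.inl (ne_of_gt hx))

theorem gob_inL1 (w : ℝ → ℝ) (hw : IsWeight w) (a : ℝ) (ha : 0 < a) (c : ℂ) (δ K : ℝ)
    (hδ : 0 < δ) (hb : ∀ t : ℝ, 0 ≤ t → w t ≤ K * Real.exp (-(δ * t ^ (a / 2)) - c.re * t)) :
    InL1 w (pw a c) := by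
  have h1 : IntegrableOn (fun t : ℝ => K * (t ^ (a - 1) * Real.exp (-δ * t ^ (a / 2)))) (Ioi 0) :=
    (integrableOn_rpow_mul_exp_neg_mul_rpow (by linarith) (by positivity) hδ).const_mul K
  unfold InL1
  refine Integrable.mono' h1 ?_ ?_
  · apply ContinuousOn.aestronglyMeasurable _ measurableSet_Ioi
    refine (gob_pw_cont a c).mul ?_
    exact Complex.continuous_ofReal.comp_continuousOn (hw.cont.mono Ioi_subset_Ici_self)
  · refine (ae_restrict_iff' measurableSet_Ioi).2 (Filter.Eventually.of_forall fun t ht => ?_)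
    have ht0 : 0 < t := ht
    rw [norm_mul, gob_norm_pw a c t ht0, Complex.norm_real, Real.norm_of_nonneg (hw.pos t ht0.le).le]
    calc t ^ (a - 1) * Real.exp (c.re * t) * w t
        ≤ t ^ (a - 1) * Real.exp (c.re * t) * (K * Real.exp (-(δ * t ^ (a / 2)) - c.re * t)) := by
          gcongr
          exact hb t ht0.le
      _ = K * (t ^ (a - 1) * (Real.exp (c.re * t) * Real.exp (-(δ * t ^ (a / 2)) - c.re * t))) := by
          ring
      _ = K * (t ^ (a - 1) * Real.exp (-δ * t ^ (a / 2))) := by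
          rw [← Real.exp_add]
          congr 3
          ring

/-- transported weight -/
noncomputable def gobW (w : ℝ → ℝ) (b : ℝ) (c : ℂ) (y : ℝ) : ℝ :=
  w (y ^ (1 / b)) * Real.exp (c.re * y ^ (1 / b))

/-- transported function -/
noncomputable def gobH (h : ℝ → ℂ) (b : ℝ) (c : ℂ) (y : ℝ) : ℂ :=
  h (y ^ (1 / b)) * Complex.exp (-(c * (y ^ (1 / b) : ℝ))) * (((y ^ (1 / b)) ^ (1 - b) : ℝ) : ℂ)

theorem gob_inv (b : ℝ) (hb : 0 < b) (t : ℝ) (ht : 0 < t) : (t ^ b) ^ (1 / b) = t := by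
  rw [← Real.rpow_mul ht.le, mul_one_div_cancel hb.ne', Real.rpow_one]

theorem gobW_cont (w : ℝ → ℝ) (hw : IsWeight w) (b : ℝ) (c : ℂ) :
    ContinuousOn (gobW w b c) (Ioi 0) := by
  have h1 : ContinuousOn (fun y : ℝ => y ^ (1 / b)) (Ioi 0) :=
    ContinuousOn.rpow_const continuousOn_id (fun x hx => Or.inl (ne_of_gt hx))
  unfold gobW
  refine ContinuousOn.mul ?_ ?_
  · exact hw.cont.comp h1 (fun y hy => Real.rpow_nonneg (le_of_lt hy) _)
  · exact (continuousOn_const.mul h1).rexp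

theorem gobHW_int (w : ℝ → ℝ) (b : ℝ) (hb : 0 < b) (c : ℂ)
    (h : ℝ → ℂ) (hh : InL1 w h) :
    IntegrableOn (fun y : ℝ => gobH h b c y * (gobW w b c y : ℂ)) (Ioi 0) := by
  rw [← integrableOn_Ioi_comp_rpow_iff' _ hb.ne']
  unfold InL1 at hh
  have h1 : IntegrableOn (fun t : ℝ => Complex.exp (-(c * t) + (c.re * t : ℝ)) * (h t * (w t : ℂ)))
      (Ioi 0) := by
    refine Integrable.bdd_mul (c := 1) hh ?_ ?_
    · apply Continuous.aestronglyMeasurable
      fun_prop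
    · refine Filter.Eventually.of_forall fun t => ?_
      rw [Complex.norm_exp]
      simp
  refine h1.congr_fun (fun t ht => ?_) measurableSet_Ioi
  have ht0 : 0 < t := ht
  simp only [gobH, gobW]
  rw [gob_inv b hb t ht0, Complex.exp_add]
  have e1 : ((t ^ (b - 1) : ℝ) : ℂ) * ((t ^ (1 - b) : ℝ) : ℂ) = 1 := by
    rw [← Complex.ofReal_mul, ← Real.rpow_add ht0]
    simp
  rw [Complex.real_smul]
  push_cast
  have e2 : ((t ^ (b - 1) : ℝ) : ℂ) * (h t * Complex.exp (-(c * (t : ℂ))) * ((t ^ (1 - b) : ℝ) : ℂ)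
      * ((w t : ℂ) * Complex.exp (c.re * t)))
      = (((t ^ (b - 1) : ℝ) : ℂ) * ((t ^ (1 - b) : ℝ) : ℂ)) * (Complex.exp (-(c * (t : ℂ)))
        * Complex.exp (c.re * t) * (h t * (w t : ℂ))) := by ring
  rw [e1, one_mul] at e2
  exact e2.symm

theorem gob_point (w : ℝ → ℝ) (hw : IsWeight w) (a : ℝ) (ha : 0 < a) (c : ℂ)
    (h : ℝ → ℂ) (n : ℕ) (d : ℕ → ℂ) (C : ℕ → ℝ) (hC0 : ∀ k, 0 < C k)
    (hC : ∀ k, ∀ t : ℝ, 0 < t → cpow (pw a c) k t = (C k : ℂ) * pw (a * (k + 1)) c t)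
    (t : ℝ) (ht : 0 < t) :
    ‖h t - ∑ k ∈ Finset.range n, (d k / (C k : ℂ)) * cpow (pw a c) k t‖ * w t
      = t ^ (a / 2 - 1) * (‖gobH h (a / 2) c (t ^ (a / 2))
          - ∑ k ∈ Finset.range n, d k * (((t ^ (a / 2) : ℝ) : ℂ)) ^ (2 * k + 1)‖
          * gobW w (a / 2) c (t ^ (a / 2))) := by
  have hb : 0 < a / 2 := by positivity
  simp only [gobH, gobW]
  rw [gob_inv _ hb t ht]
  have e1 : ((t ^ (a / 2 - 1) : ℝ) : ℂ) * ((t ^ (1 - a / 2) : ℝ) : ℂ) = 1 := by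
    rw [← Complex.ofReal_mul, ← Real.rpow_add ht]
    simp
  have e2 : Complex.exp (c * t) * Complex.exp (-(c * (t : ℂ))) = 1 := by
    rw [← Complex.exp_add]; simp
  -- factor
  have e3 : h t - ∑ k ∈ Finset.range n, (d k / (C k : ℂ)) * cpow (pw a c) k t
      = (((t ^ (a / 2 - 1) : ℝ) : ℂ) * Complex.exp (c * t)) *
        (h t * Complex.exp (-(c * (t : ℂ))) * ((t ^ (1 - a / 2) : ℝ) : ℂ)
          - ∑ k ∈ Finset.range n, d k * (((t ^ (a / 2) : ℝ) : ℂ)) ^ (2 * k + 1)) := by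
    rw [mul_sub, Finset.mul_sum]
    congr 1
    · have : (((t ^ (a / 2 - 1) : ℝ) : ℂ) * Complex.exp (c * t)) *
        (h t * Complex.exp (-(c * (t : ℂ))) * ((t ^ (1 - a / 2) : ℝ) : ℂ))
        = (((t ^ (a / 2 - 1) : ℝ) : ℂ) * ((t ^ (1 - a / 2) : ℝ) : ℂ))
          * (Complex.exp (c * t) * Complex.exp (-(c * (t : ℂ)))) * h t := by ring
      rw [this, e1, e2, one_mul, one_mul]
    · refine Finset.sum_congr rfl fun k _ => ?_
      rw [hC k t ht]
      have hCk : (C k : ℂ) ≠ 0 := by exact_mod_cast (hC0 k).ne'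
      have e4 : ((t ^ (a * (k + 1) - 1) : ℝ) : ℂ)
          = ((t ^ (a / 2 - 1) : ℝ) : ℂ) * (((t ^ (a / 2) : ℝ) : ℂ)) ^ (2 * k + 1) := by
        rw [← Complex.ofReal_pow, ← Complex.ofReal_mul, ← Real.rpow_natCast, ← Real.rpow_mul ht.le,
          ← Real.rpow_add ht]
        congr 2
        push_cast
        ring
      unfold pw
      rw [e4]
      field_simp
  rw [e3, norm_mul, norm_mul, Complex.norm_real, Real.norm_of_nonneg (by positivity),
    Complex.norm_exp]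
  have e5 : (c * (t : ℂ)).re = c.re * t := by simp
  rw [e5]
  ring

theorem gen_of_bound (w : ℝ → ℝ) (hw : IsWeight w) (a : ℝ) (ha : 0 < a) (c : ℂ) (δ K : ℝ)
    (hδ : 0 < δ) (hb : ∀ t : ℝ, 0 ≤ t → w t ≤ K * Real.exp (-(δ * t ^ (a / 2)) - c.re * t)) :
    IsPolyGen w (pw a c) := by
  refine ⟨gob_inL1 w hw a ha c δ K hδ hb, ?_⟩
  intro h hh ε hε
  have hb0 : 0 < a / 2 := by positivity
  choose C hC0 hC using fun k => cpow_pw a ha c k
  obtain ⟨n, d, hint, hlt⟩ := odd_dense (gobW w (a / 2) c) (gobW_cont w hw (a / 2) c)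
    (fun y hy => mul_pos (hw.pos _ (Real.rpow_nonneg hy.le _)) (Real.exp_pos _)) δ K hδ
    (fun y hy => by
      have hy1 : 0 ≤ y ^ (1 / (a / 2)) := Real.rpow_nonneg hy.le _
      have h1 := hb _ hy1
      have h2 : (y ^ (1 / (a / 2))) ^ (a / 2) = y := by
        rw [← Real.rpow_mul hy.le, one_div_mul_cancel hb0.ne', Real.rpow_one]
      rw [h2] at h1
      unfold gobW
      calc w (y ^ (1 / (a / 2))) * Real.exp (c.re * y ^ (1 / (a / 2)))
          ≤ K * Real.exp (-(δ * y) - c.re * y ^ (1 / (a / 2)))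
            * Real.exp (c.re * y ^ (1 / (a / 2))) := by gcongr
        _ = K * Real.exp (-(δ * y)) := by
            rw [mul_assoc, ← Real.exp_add]
            congr 2
            ring)
    (gobH h (a / 2) c) (gobHW_int w (a / 2) hb0 c h hh) (ε * (a / 2)) (by positivity)
  refine ⟨n, fun k => d k / (C k : ℂ), ?_⟩
  have hcomp := (integrableOn_Ioi_comp_rpow_iff' (fun y : ℝ => ‖gobH h (a / 2) c y
      - ∑ k ∈ Finset.range n, d k * (y : ℂ) ^ (2 * k + 1)‖ * gobW w (a / 2) c y) hb0.ne').2 hint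
  have hval := integral_comp_rpow_Ioi_of_pos (g := fun y : ℝ => ‖gobH h (a / 2) c y
      - ∑ k ∈ Finset.range n, d k * (y : ℂ) ^ (2 * k + 1)‖ * gobW w (a / 2) c y) hb0
  have e0 : ∫⁻ t in Ioi (0:ℝ), ENNReal.ofReal
      (‖h t - ∑ k ∈ Finset.range n, (d k / (C k : ℂ)) * cpow (pw a c) k t‖ * w t)
      = ∫⁻ t in Ioi (0:ℝ), ENNReal.ofReal (t ^ (a / 2 - 1) • (‖gobH h (a / 2) c (t ^ (a / 2))
          - ∑ k ∈ Finset.range n, d k * (((t ^ (a / 2) : ℝ) : ℂ)) ^ (2 * k + 1)‖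
          * gobW w (a / 2) c (t ^ (a / 2)))) := by
    refine setLIntegral_congr_fun measurableSet_Ioi (fun t ht => ?_)
    rw [gob_point w hw a ha c h n d C hC0 hC t ht, smul_eq_mul]
  rw [e0, ← ofReal_integral_eq_lintegral_ofReal hcomp]
  · refine (ENNReal.ofReal_lt_ofReal_iff hε).2 ?_
    have e1 : ∫ t in Ioi (0:ℝ), ((a / 2) * t ^ (a / 2 - 1)) • (‖gobH h (a / 2) c (t ^ (a / 2))
          - ∑ k ∈ Finset.range n, d k * (((t ^ (a / 2) : ℝ) : ℂ)) ^ (2 * k + 1)‖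
          * gobW w (a / 2) c (t ^ (a / 2)))
        = (a / 2) * ∫ t in Ioi (0:ℝ), t ^ (a / 2 - 1) • (‖gobH h (a / 2) c (t ^ (a / 2))
          - ∑ k ∈ Finset.range n, d k * (((t ^ (a / 2) : ℝ) : ℂ)) ^ (2 * k + 1)‖
          * gobW w (a / 2) c (t ^ (a / 2))) := by
      rw [← integral_const_mul]
      refine integral_congr_ae (Filter.Eventually.of_forall fun t => ?_)
      simp only [smul_eq_mul]
      ring
    rw [e1] at hval
    have h3 : (a / 2) * ∫ t in Ioi (0:ℝ), t ^ (a / 2 - 1) • (‖gobH h (a / 2) c (t ^ (a / 2))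
          - ∑ k ∈ Finset.range n, d k * (((t ^ (a / 2) : ℝ) : ℂ)) ^ (2 * k + 1)‖
          * gobW w (a / 2) c (t ^ (a / 2))) < (a / 2) * ε := by
      rw [hval, mul_comm (a / 2) ε]
      exact hlt
    exact lt_of_mul_lt_mul_left h3 hb0.le
  · refine (ae_restrict_iff' measurableSet_Ioi).2 (Filter.Eventually.of_forall fun t ht => ?_)
    have ht0 : (0:ℝ) < t := ht
    have hw1 : 0 ≤ gobW w (a / 2) c (t ^ (a / 2)) :=
      mul_nonneg (hw.pos _ (Real.rpow_nonneg (Real.rpow_nonneg ht0.le _) _)).le (Real.exp_pos _).le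
    simp only [Pi.zero_apply, smul_eq_mul]
    positivity

end Pool.Agent.Helper5.PG
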