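import Mathlib
import Pool.Agent.Helper5.Pg.Defs
import Pool.Agent.Helper5.Pg.GenOfBound
import Pool.Agent.Helper5.Pg.RadicalBound

set_option autoImplicit false

open MeasureTheory Set Filter Topology

namespace Pool.Agent.Helper5.PG

theorem gen_radical (w : ℝ → ℝ) (hw : IsWeight w) (hr : IsRadical w) (a : ℝ) (ha : 0 < a)
    (ha2 : a ≤ 2) (c : ℂ) : IsPolyGen w (pw a c) := by
  obtain ⟨K, hK⟩ := radical_bound w hw hr (1 + c.re)
  have hK0 : 0 ≤ K := by
    have := hK 0 le_rfl
    have h0 := hw.pos 0 le_rfl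
    simp at this
    linarith
  refine gen_of_bound w hw a ha c 1 (K * Real.exp 1) one_pos fun t ht => (hK t ht).trans ?_
  rw [mul_assoc, ← Real.exp_add]
  refine mul_le_mul_of_nonneg_left (Real.exp_le_exp.mpr ?_) hK0
  have hle : t ^ (a / 2) ≤ 1 + t := by
    rcases le_total t 1 with h | h
    · have : t ^ (a / 2) ≤ 1 := Real.rpow_le_one ht h (by positivity)
      linarith
    · have : t ^ (a / 2) ≤ t ^ (1:ℝ) := Real.rpow_le_rpow_of_exponent_le h (by linarith)
      rw [Real.rpow_one] at this
      linarith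
  nlinarith

end Pool.Agent.Helper5.PG
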