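import Mathlib
import Pool.Agent.Helper5.Pg.Defs

set_option autoImplicit false
open MeasureTheory Set Filter Topology

namespace Pool.Agent.Helper5.PG

theorem lap_meas (a r : ℂ) : AEStronglyMeasurable
    (fun t : ℝ => (t : ℂ) ^ (a - 1) * Complex.exp (-(r * (t : ℂ)))) (volume.restrict (Set.Ioi 0)) := by
  apply ContinuousOn.aestronglyMeasurable _ measurableSet_Ioi
  refine ContinuousOn.mul ?_ (by fun_prop)
  intro s hs
  refine ContinuousAt.continuousWithinAt ?_
  exact (Complex.continuousAt_ofReal_cpow_const s _ (Or.inr (ne_of_gt hs)))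

theorem lap_int (a : ℂ) (ha : 0 < a.re) (r : ℂ) (hr : 0 < r.re) :
    IntegrableOn (fun t : ℝ => (t : ℂ) ^ (a - 1) * Complex.exp (-(r * (t : ℂ)))) (Set.Ioi 0) := by
  have h0 : IntegrableOn (fun s : ℝ => s ^ (a.re - 1) * Real.exp (-r.re * s ^ (1:ℝ)))
      (Set.Ioi 0) :=
    integrableOn_rpow_mul_exp_neg_mul_rpow (by linarith) one_pos hr
  refine Integrable.mono' h0 (lap_meas a r) ?_
  refine (ae_restrict_iff' measurableSet_Ioi).2 (Eventually.of_forall fun s hs => ?_)
  rw [norm_mul, Complex.norm_exp, Complex.norm_cpow_eq_rpow_re_of_pos hs, Real.rpow_one]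
  apply le_of_eq
  simp

theorem lap_diff (a : ℂ) (ha : 0 < a.re) (r : ℂ) (hr : 0 < r.re) :
    DifferentiableAt ℂ (fun r : ℂ => ∫ t in Set.Ioi (0:ℝ),
      (t : ℂ) ^ (a - 1) * Complex.exp (-(r * (t : ℂ)))) r := by
  have h0 : IntegrableOn (fun s : ℝ => s ^ (a.re) * Real.exp (-(r.re / 2) * s ^ (1:ℝ)))
      (Set.Ioi 0) :=
    integrableOn_rpow_mul_exp_neg_mul_rpow (by linarith) one_pos (by linarith)
  have key := hasDerivAt_integral_of_dominated_loc_of_deriv_le
    (μ := (volume : Measure ℝ).restrict (Set.Ioi 0)) (x₀ := r)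
    (F := fun (r : ℂ) (t : ℝ) => (t : ℂ) ^ (a - 1) * Complex.exp (-(r * (t : ℂ))))
    (F' := fun (r : ℂ) (t : ℝ) => (t : ℂ) ^ (a - 1) * (Complex.exp (-(r * (t : ℂ))) * (-(t : ℂ))))
    (bound := fun t => t ^ (a.re) * Real.exp (-(r.re / 2) * t ^ (1:ℝ)))
    (s := Metric.ball r (r.re / 2)) (Metric.ball_mem_nhds r (by linarith))
    (Eventually.of_forall fun x => lap_meas a x) (lap_int a ha r hr) ?_ ?_ h0 ?_
  · exact key.2.differentiableAt
  · have h1 := (lap_meas a r).mul (g := fun t : ℝ => (-(t : ℂ))) (by fun_prop)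
    refine h1.congr (Eventually.of_forall fun t => ?_)
    show (t : ℂ) ^ (a - 1) * Complex.exp (-(r * (t : ℂ))) * (-(t : ℂ)) = _
    ring
  · refine (ae_restrict_iff' measurableSet_Ioi).2 (Eventually.of_forall fun s hs => ?_)
    intro x hx
    have hs' : 0 < s := hs
    have hx1 : r.re / 2 < x.re := by
      have h1 : |(x - r).re| < r.re / 2 := by
        refine (Complex.abs_re_le_norm _).trans_lt ?_
        rw [Metric.mem_ball, dist_eq_norm] at hx
        exact hx
      rw [Complex.sub_re] at h1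
      have := (abs_lt.1 h1).1
      linarith
    rw [norm_mul, norm_mul, Complex.norm_exp, Complex.norm_cpow_eq_rpow_re_of_pos hs, Real.rpow_one,
      norm_neg, Complex.norm_real, Real.norm_eq_abs, abs_of_pos hs']
    have h2 : (-(x * (s : ℂ))).re = -(x.re * s) := by
      rw [Complex.neg_re, Complex.re_mul_ofReal]
    rw [h2, Complex.sub_re, Complex.one_re]
    have h3 : s ^ (a.re) = s ^ (a.re - 1) * s := by
      rw [Real.rpow_sub_one hs'.ne']
      field_simp
    rw [h3]
    have h4 : Real.exp (-(x.re * s)) ≤ Real.exp (-(r.re / 2) * s) := by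
      apply Real.exp_le_exp.2
      nlinarith
    calc s ^ (a.re - 1) * (Real.exp (-(x.re * s)) * s)
        = s ^ (a.re - 1) * s * Real.exp (-(x.re * s)) := by ring
      _ ≤ s ^ (a.re - 1) * s * Real.exp (-(r.re / 2) * s) :=
          mul_le_mul_of_nonneg_left h4 (by positivity)
  · refine Eventually.of_forall fun t x _ => ?_
    have h5 : HasDerivAt (fun r : ℂ => -(r * (t : ℂ))) (-(t : ℂ)) x := by
      have h6 : HasDerivAt (fun r : ℂ => r * (t : ℂ)) (t : ℂ) x := by
        simpa using (hasDerivAt_id x).mul_const (t : ℂ)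
      exact h6.neg
    exact (h5.cexp).const_mul _

theorem lap_val (a : ℂ) (ha : 0 < a.re) (r : ℂ) (hr : 0 < r.re) :
    ∫ t in Set.Ioi (0:ℝ), (t : ℂ) ^ (a - 1) * Complex.exp (-(r * (t : ℂ))) =
      (1 / r) ^ a * Complex.Gamma a := by
  have hopen : IsOpen {r : ℂ | 0 < r.re} := isOpen_lt continuous_const Complex.continuous_re
  have hconv : Convex ℝ {r : ℂ | 0 < r.re} := convex_halfSpace_re_gt 0
  have hf : AnalyticOnNhd ℂ (fun r : ℂ => ∫ t in Set.Ioi (0:ℝ),
      (t : ℂ) ^ (a - 1) * Complex.exp (-(r * (t : ℂ)))) {r : ℂ | 0 < r.re} :=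
    DifferentiableOn.analyticOnNhd (fun x hx => (lap_diff a ha x hx).differentiableWithinAt) hopen
  have hg : AnalyticOnNhd ℂ (fun r : ℂ => (1 / r) ^ a * Complex.Gamma a) {r : ℂ | 0 < r.re} := by
    refine DifferentiableOn.analyticOnNhd (fun x hx => ?_) hopen
    have hx' : 0 < x.re := hx
    have hx0 : x ≠ 0 := by
      rintro rfl
      simp at hx'
    refine DifferentiableAt.differentiableWithinAt ?_
    refine DifferentiableAt.mul_const ?_ _
    refine DifferentiableAt.cpow_const ?_ ?_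
    · exact (differentiableAt_const (1:ℂ)).div differentiableAt_fun_id hx0
    · rw [one_div]
      left
      rw [Complex.inv_re]
      exact div_pos hx' (Complex.normSq_pos.2 hx0)
  refine hf.eqOn_of_preconnected_of_frequently_eq hg hconv.isPreconnected (z₀ := 1) (by simp) ?_ hr
  have hreal : ∀ x : ℝ, 0 < x → (∫ t in Set.Ioi (0:ℝ),
      (t : ℂ) ^ (a - 1) * Complex.exp (-((x : ℂ) * (t : ℂ)))) = (1 / (x : ℂ)) ^ a * Complex.Gamma a :=
    fun x hx => Complex.integral_cpow_mul_exp_neg_mul_Ioi ha hx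
  have hseq : Tendsto (fun n : ℕ => ((1 + 1 / ((n : ℝ) + 1) : ℝ) : ℂ)) atTop (𝓝[≠] 1) := by
    refine tendsto_nhdsWithin_iff.2 ⟨?_, Eventually.of_forall fun n => ?_⟩
    · have h1 : Tendsto (fun n : ℕ => (1 + 1 / ((n : ℝ) + 1) : ℝ)) atTop (𝓝 (1 + 0)) :=
        tendsto_const_nhds.add tendsto_one_div_add_atTop_nhds_zero_nat
      rw [add_zero] at h1
      have h2 := (Complex.continuous_ofReal.tendsto 1).comp h1
      rw [Complex.ofReal_one] at h2
      exact h2
    · intro h
      have h1 : (1 + 1 / ((n : ℝ) + 1) : ℝ) = 1 := by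
        exact_mod_cast (Set.mem_singleton_iff.1 h)
      have h2 : (0:ℝ) < 1 / ((n : ℝ) + 1) := by positivity
      linarith
  refine hseq.frequently (Frequently.of_forall fun n => ?_)
  exact hreal _ (by positivity)

theorem ann_integral (a p l : ℝ) (hp : 0 < p) (hpa : p < a / 2) (hl : 0 < l) (k : ℕ) :
    IntegrableOn (fun t : ℝ => t ^ (a * (k + 1) - 1) *
      (Real.exp (-(l * Real.cos (Real.pi * p / a) * t ^ p)) *
        Real.sin (l * Real.sin (Real.pi * p / a) * t ^ p))) (Ioi 0) ∧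
    ∫ t in Ioi (0:ℝ), t ^ (a * (k + 1) - 1) *
      (Real.exp (-(l * Real.cos (Real.pi * p / a) * t ^ p)) *
        Real.sin (l * Real.sin (Real.pi * p / a) * t ^ p)) = 0 := by
  have ha : 0 < a := by linarith
  obtain ⟨θ, hθ⟩ : ∃ θ : ℝ, θ = Real.pi * p / a := ⟨_, rfl⟩
  obtain ⟨s, hs⟩ : ∃ s : ℝ, s = a * ((k:ℝ) + 1) := ⟨_, rfl⟩
  rw [← hθ, ← hs]
  have hs0 : 0 < s := by rw [hs]; positivity
  have hθ0 : 0 < θ := by rw [hθ]; positivity
  have hθ1 : θ < Real.pi / 2 := by
    rw [hθ, div_lt_iff₀ ha]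
    nlinarith [Real.pi_pos]
  have hcos : 0 < Real.cos θ := Real.cos_pos_of_mem_Ioo ⟨by linarith, hθ1⟩
  have hlc : 0 < l * Real.cos θ := by positivity
  constructor
  · have h0 := integrableOn_rpow_mul_exp_neg_mul_rpow (s := s - 1) (p := p) (b := l * Real.cos θ)
      (by linarith) hp hlc
    refine Integrable.mono' h0 ?_ ?_
    · apply ContinuousOn.aestronglyMeasurable _ measurableSet_Ioi
      intro t ht
      have ht0 : (0:ℝ) < t := ht
      refine ContinuousAt.continuousWithinAt ?_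
      have hc1 : ContinuousAt (fun t : ℝ => t ^ (s - 1)) t :=
        Real.continuousAt_rpow_const _ _ (Or.inl ht0.ne')
      have hc2 : ContinuousAt (fun t : ℝ => t ^ p) t :=
        Real.continuousAt_rpow_const _ _ (Or.inl ht0.ne')
      have hc3 : ContinuousAt (fun t : ℝ => Real.exp (-(l * Real.cos θ * t ^ p))) t :=
        Real.continuous_exp.continuousAt.comp ((continuousAt_const.mul hc2).neg)
      have hc4 : ContinuousAt (fun t : ℝ => Real.sin (l * Real.sin θ * t ^ p)) t :=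
        Real.continuous_sin.continuousAt.comp (continuousAt_const.mul hc2)
      exact hc1.mul (hc3.mul hc4)
    · refine (ae_restrict_iff' measurableSet_Ioi).2 (Eventually.of_forall fun t ht => ?_)
      have ht0 : (0:ℝ) < t := ht
      rw [Real.norm_eq_abs, abs_mul, abs_mul, abs_of_pos (Real.rpow_pos_of_pos ht0 _), Real.abs_exp, neg_mul]
      have h1 := Real.abs_sin_le_one (l * Real.sin θ * t ^ p)
      have h2 := Real.exp_pos (-(l * Real.cos θ * t ^ p))
      have h3 := Real.rpow_pos_of_pos ht0 (s - 1)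
      refine mul_le_mul_of_nonneg_left ?_ h3.le
      exact mul_le_of_le_one_right h2.le h1
  · obtain ⟨r, hr⟩ : ∃ r : ℂ, r = (l : ℂ) * Complex.exp (θ * Complex.I) := ⟨_, rfl⟩
    have hr' : r = ((l * Real.cos θ : ℝ) : ℂ) + ((l * Real.sin θ : ℝ) : ℂ) * Complex.I := by
      rw [hr, Complex.exp_mul_I]
      push_cast
      ring
    have hrre : r.re = l * Real.cos θ := by
      rw [hr']
      generalize l * Real.cos θ = u
      generalize l * Real.sin θ = v
      simp
    have hrim : r.im = l * Real.sin θ := by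
      rw [hr']
      generalize l * Real.cos θ = u
      generalize l * Real.sin θ = v
      simp
    have hrre0 : 0 < r.re := by rw [hrre]; exact hlc
    have hsp : 0 < s / p := by positivity
    have hval := lap_val ((s / p : ℝ) : ℂ) (by rw [Complex.ofReal_re]; exact hsp) r hrre0
    have hint := lap_int ((s / p : ℝ) : ℂ) (by rw [Complex.ofReal_re]; exact hsp) r hrre0
    have hsub := integral_comp_rpow_Ioi_of_pos (g := fun t : ℝ => (t : ℂ) ^ (((s / p : ℝ) : ℂ) - 1) * Complex.exp (-(r * (t : ℂ)))) hp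
    have hint2 := (integrableOn_Ioi_comp_rpow_iff (fun t : ℝ => (t : ℂ) ^ (((s / p : ℝ) : ℂ) - 1) * Complex.exp (-(r * (t : ℂ)))) hp.ne').2 hint
    rw [abs_of_pos hp] at hint2
    have hpt : ∀ x : ℝ, x ∈ Ioi (0:ℝ) → (p * x ^ (p - 1)) • (((x ^ p : ℝ) : ℂ) ^ (((s / p : ℝ) : ℂ) - 1) * Complex.exp (-(r * ((x ^ p : ℝ) : ℂ)))) =
        ((p * x ^ (s - 1) : ℝ) : ℂ) * Complex.exp (-(r * ((x ^ p : ℝ) : ℂ))) := by
      intro x hx
      have hx0 : (0:ℝ) < x := hx
      have h1 : ((x ^ p : ℝ) : ℂ) ^ (((s / p : ℝ) : ℂ) - 1) = ((x ^ (s - p) : ℝ) : ℂ) := by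
        rw [show (((s / p : ℝ) : ℂ) - 1) = ((s / p - 1 : ℝ) : ℂ) by push_cast; ring,
          ← Complex.ofReal_cpow (Real.rpow_nonneg hx0.le _), ← Real.rpow_mul hx0.le]
        congr 2
        field_simp
      rw [h1, Complex.real_smul, ← mul_assoc, ← Complex.ofReal_mul]
      congr 2
      rw [mul_assoc, ← Real.rpow_add hx0]
      congr 2
      ring
    have him : ∀ x : ℝ, (((p * x ^ (s - 1) : ℝ) : ℂ) * Complex.exp (-(r * ((x ^ p : ℝ) : ℂ)))).im =
        (-p) * (x ^ (s - 1) * (Real.exp (-(l * Real.cos θ * x ^ p)) * Real.sin (l * Real.sin θ * x ^ p))) := by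
      intro x
      rw [Complex.im_ofReal_mul, Complex.exp_im]
      have e1 : (-(r * ((x ^ p : ℝ) : ℂ))).re = -(l * Real.cos θ * x ^ p) := by
        rw [Complex.neg_re, Complex.re_mul_ofReal, hrre]
      have e2 : (-(r * ((x ^ p : ℝ) : ℂ))).im = -(l * Real.sin θ * x ^ p) := by
        rw [Complex.neg_im, Complex.im_mul_ofReal, hrim]
      rw [e1, e2, Real.sin_neg]
      ring
    have hval2 : ∫ x in Ioi (0:ℝ), ((p * x ^ (s - 1) : ℝ) : ℂ) * Complex.exp (-(r * ((x ^ p : ℝ) : ℂ))) =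
        (1 / r) ^ ((s / p : ℝ) : ℂ) * Complex.Gamma ((s / p : ℝ) : ℂ) := by
      rw [← hval, ← hsub]
      exact (setIntegral_congr_fun measurableSet_Ioi hpt).symm
    have hint3 : IntegrableOn (fun x : ℝ => ((p * x ^ (s - 1) : ℝ) : ℂ) * Complex.exp (-(r * ((x ^ p : ℝ) : ℂ)))) (Ioi 0) :=
      (integrableOn_congr_fun hpt measurableSet_Ioi).1 hint2
    have h1 : ∫ x in Ioi (0:ℝ), (((p * x ^ (s - 1) : ℝ) : ℂ) * Complex.exp (-(r * ((x ^ p : ℝ) : ℂ)))).im =
        (∫ x in Ioi (0:ℝ), ((p * x ^ (s - 1) : ℝ) : ℂ) * Complex.exp (-(r * ((x ^ p : ℝ) : ℂ)))).im :=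
      integral_im (𝕜 := ℂ) hint3
    have hreal : ((1 / r) ^ ((s / p : ℝ) : ℂ) * Complex.Gamma ((s / p : ℝ) : ℂ)).im = 0 := by
      have hinv : (1 / r) = Complex.exp (((-Real.log l : ℝ) : ℂ) + ((-θ : ℝ) : ℂ) * Complex.I) := by
        rw [hr, one_div, mul_inv, ← Complex.exp_neg, Complex.exp_add]
        congr 1
        · rw [← Complex.ofReal_exp, Real.exp_neg, Real.exp_log hl]
          push_cast; rfl
        · congr 1; push_cast; ring
      have hlog : Complex.log (1 / r) = ((-Real.log l : ℝ) : ℂ) + ((-θ : ℝ) : ℂ) * Complex.I := by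
        rw [hinv]
        apply Complex.log_exp
        · simp; linarith [Real.pi_pos]
        · simp; linarith [Real.pi_pos]
      have hne : (1 / r) ≠ 0 := by rw [hinv]; exact Complex.exp_ne_zero _
      have hpow : (1 / r) ^ ((s / p : ℝ) : ℂ) = ((Real.exp (-Real.log l * (s / p)) * (-1) ^ (k + 1) : ℝ) : ℂ) := by
        rw [Complex.cpow_def_of_ne_zero hne, hlog, add_mul, Complex.exp_add]
        have e1 : ((-θ : ℝ) : ℂ) * Complex.I * ((s / p : ℝ) : ℂ) = -((((k + 1 : ℕ)) : ℂ) * (Real.pi * Complex.I)) := by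
          have e2 : θ * (s / p) = Real.pi * ((k:ℝ) + 1) := by
            rw [hθ, hs]; field_simp
          have e3 : ((θ : ℝ) : ℂ) * ((s / p : ℝ) : ℂ) = (Real.pi : ℂ) * ((k:ℂ) + 1) := by
            have := congrArg (fun x : ℝ => (x : ℂ)) e2
            simp only [Complex.ofReal_mul, Complex.ofReal_add, Complex.ofReal_natCast, Complex.ofReal_one] at this
            exact this
          calc ((-θ : ℝ) : ℂ) * Complex.I * ((s / p : ℝ) : ℂ) = -(((θ : ℝ) : ℂ) * ((s / p : ℝ) : ℂ) * Complex.I) := by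
                push_cast; ring
            _ = _ := by rw [e3]; push_cast; ring
        rw [e1, Complex.exp_neg, Complex.exp_nat_mul, Complex.exp_pi_mul_I]
        rw [← Complex.ofReal_mul, ← Complex.ofReal_exp]
        push_cast
        congr 1
        rw [← inv_pow]
        norm_num
      rw [hpow, Complex.Gamma_ofReal, ← Complex.ofReal_mul, Complex.ofReal_im]
    have h2 : ∫ x in Ioi (0:ℝ), (-p) * (x ^ (s - 1) * (Real.exp (-(l * Real.cos θ * x ^ p)) * Real.sin (l * Real.sin θ * x ^ p))) = 0 := by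
      have h4 := hreal
      rw [← hval2, ← h1] at h4
      simp only [him] at h4
      exact h4
    rw [integral_const_mul] at h2
    rcases mul_eq_zero.1 h2 with h | h
    · linarith
    · exact h

end Pool.Agent.Helper5.PG
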