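import Mathlib
import Pool.Agent.Helper5.Pg.Defs

set_option autoImplicit false
open MeasureTheory Set Filter Topology

namespace Pool.Agent.Helper5.PG

theorem expw_bound (p a : ℝ) (hp : 1 < p) (ha : 0 < a) (hap : a ≤ 2 * p) (r : ℝ) :
    ∃ K : ℝ, ∀ t : ℝ, 0 ≤ t →
      Real.exp (-(t ^ p)) ≤ K * Real.exp (-((1/2) * t ^ (a / 2)) - r * t) := by
  set T : ℝ := (2 * |r|) ^ (1 / (p - 1)) with hT
  have hT0 : 0 ≤ T := by positivity
  refine ⟨Real.exp (1 / 2 + |r| * T), fun t ht => ?_⟩
  rw [← Real.exp_add]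
  apply Real.exp_le_exp.2
  have h1 : t ^ (a / 2) ≤ 1 + t ^ p := by
    have hp0 : 0 ≤ t ^ p := Real.rpow_nonneg ht p
    by_cases h : t ≤ 1
    · have := Real.rpow_le_one ht h (by positivity : 0 ≤ a / 2)
      linarith
    · have := Real.rpow_le_rpow_of_exponent_le (le_of_lt (not_le.1 h)) (by linarith : a / 2 ≤ p)
      linarith
  have h2 : |r| * t ≤ t ^ p / 2 + |r| * T := by
    have hp0 : 0 ≤ t ^ p := Real.rpow_nonneg ht p
    by_cases h : t ≤ T
    · have := mul_le_mul_of_nonneg_left h (abs_nonneg r)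
      linarith
    · have htT : T < t := not_le.1 h
      have ht0 : 0 < t := lt_of_le_of_lt hT0 htT
      have h3 : 2 * |r| ≤ t ^ (p - 1) := by
        calc 2 * |r| = T ^ (p - 1) := by
              rw [hT, ← Real.rpow_mul (by positivity), one_div,
                inv_mul_cancel₀ (by
                  intro h0; linarith), Real.rpow_one]
          _ ≤ t ^ (p - 1) := Real.rpow_le_rpow hT0 htT.le (by linarith)
      have h4 : t ^ p = t ^ (p - 1) * t := by
        rw [← Real.rpow_add_one ht0.ne']
        congr 1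
        ring
      have h5 : 2 * |r| * t ≤ t ^ p := by
        rw [h4]
        exact mul_le_mul_of_nonneg_right h3 ht0.le
      have h6 : 0 ≤ |r| * T := by positivity
      linarith
  have h3 : r * t ≤ |r| * t := mul_le_mul_of_nonneg_right (le_abs_self r) ht
  linarith

end Pool.Agent.Helper5.PG
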