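import Mathlib
import Pool.Agent.Helper5.Pg.Defs

set_option autoImplicit false
open MeasureTheory Set Filter Topology

namespace Pool.Agent.Helper5.PG

theorem expw_weight (p : ℝ) (hp : 1 < p) :
    IsWeight (fun t : ℝ => Real.exp (-(t ^ p))) ∧ IsRadical (fun t : ℝ => Real.exp (-(t ^ p))) := by
  have hc : Continuous fun t : ℝ => t ^ p := Real.continuous_rpow_const (by linarith)
  refine ⟨⟨?_, fun t _ => Real.exp_pos _, ?_⟩, ?_⟩
  · exact (Real.continuous_exp.comp hc.neg).continuousOn
  · intro s t hs ht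
    rw [← Real.exp_add]
    apply Real.exp_le_exp.mpr
    have h := NNReal.add_rpow_le_rpow_add (⟨s, hs⟩ : NNReal) (⟨t, ht⟩ : NNReal) hp.le
    have h2 : s ^ p + t ^ p ≤ (s + t) ^ p := by exact_mod_cast h
    linarith
  · have h1 : Tendsto (fun t : ℝ => Real.exp (-(t ^ (p - 1)))) atTop (𝓝 0) := by
      have h2 : Tendsto (fun t : ℝ => t ^ (p - 1)) atTop atTop := tendsto_rpow_atTop (by linarith)
      exact Real.tendsto_exp_neg_atTop_nhds_zero.comp h2
    refine h1.congr' ?_
    filter_upwards [eventually_gt_atTop (0 : ℝ)] with t ht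
    rw [← Real.exp_mul]
    congr 1
    rw [Real.rpow_sub ht, Real.rpow_one]
    ring

end Pool.Agent.Helper5.PG
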