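import Mathlib
import Pool.Agent.Helper5.Pg.Defs
import Pool.Agent.Helper5.Pg.CpowPw
import Pool.Agent.Helper5.Pg.AnnIntegral

set_option autoImplicit false
open MeasureTheory Set Filter Topology

namespace Pool.Agent.Helper5.PG

theorem not_gen (w : ℝ → ℝ) (hw : IsWeight w) (a : ℝ) (ha : 0 < a) (c : ℂ) (p κ K : ℝ)
    (hp : 1 ≤ p) (hpa : p < a / 2) (hκ : 0 < κ)
    (hb : ∀ t : ℝ, 0 ≤ t → κ * Real.exp (-(K * t ^ p)) ≤ w t) :
    ¬ IsPolyGen w (pw a c) := by
  intro hgen
  obtain ⟨-, hgen⟩ := hgen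
  have hp0 : 0 < p := by linarith
  obtain ⟨θ, hθ⟩ : ∃ θ, θ = Real.pi * p / a := ⟨_, rfl⟩
  have hθ0 : 0 < θ := by rw [hθ]; positivity
  have hθ1 : θ < Real.pi / 2 := by
    rw [hθ, div_lt_iff₀ ha]; nlinarith [Real.pi_pos]
  have hcos : 0 < Real.cos θ := Real.cos_pos_of_mem_Ioo ⟨by linarith [Real.pi_pos], hθ1⟩
  have hsin : 0 < Real.sin θ := Real.sin_pos_of_pos_of_lt_pi hθ0 (by linarith [Real.pi_pos])
  obtain ⟨K', hK'⟩ : ∃ K', K' = max K 0 := ⟨_, rfl⟩
  have hK0 : 0 ≤ K' := by rw [hK']; exact le_max_right _ _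
  have hKK : K ≤ K' := by rw [hK']; exact le_max_left _ _
  obtain ⟨l, hl⟩ : ∃ l, l = (K' + ‖c‖ + 1) / Real.cos θ := ⟨_, rfl⟩
  have hl0 : 0 < l := by rw [hl]; positivity
  have hlc : l * Real.cos θ = K' + ‖c‖ + 1 := by rw [hl]; field_simp
  choose C hC hCk using fun k => cpow_pw a ha c k
  have hann := ann_integral a p l hp0 hpa hl0
  rw [← hθ] at hann
  obtain ⟨Gr, hGr⟩ : ∃ Gr : ℝ → ℝ, Gr = fun t => Real.exp (-(l * Real.cos θ * t ^ p)) *
    Real.sin (l * Real.sin θ * t ^ p) := ⟨_, rfl⟩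
  obtain ⟨G, hG⟩ : ∃ G : ℝ → ℂ, G = fun t => (Gr t : ℂ) * Complex.exp (-(c * t)) := ⟨_, rfl⟩
  have hcp : Continuous (fun t : ℝ => t ^ p) := Real.continuous_rpow_const hp0.le
  have hGrc : Continuous Gr := by
    rw [hGr]
    exact (Real.continuous_exp.comp (continuous_const.mul hcp).neg).mul
      (Real.continuous_sin.comp (continuous_const.mul hcp))
  have hGc : Continuous G := by
    rw [hG]
    refine (Complex.continuous_ofReal.comp hGrc).mul (Complex.continuous_exp.comp ?_)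
    exact (continuous_const.mul Complex.continuous_ofReal).neg
  have htp : ∀ t : ℝ, 0 ≤ t → t ≤ 1 + t ^ p := by
    intro t ht
    have h0 : 0 ≤ t ^ p := Real.rpow_nonneg ht p
    rcases le_total t 1 with h | h
    · linarith
    · have := Real.self_le_rpow_of_one_le h hp
      linarith
  have hGb : ∀ t : ℝ, 0 ≤ t → ‖G t‖ ≤ Real.exp ‖c‖ / κ * w t := by
    intro t ht
    have h0 : 0 ≤ t ^ p := Real.rpow_nonneg ht p
    have h1 : ‖G t‖ = |Gr t| * Real.exp (-(c.re * t)) := by
      rw [hG]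
      simp only [norm_mul, Complex.norm_real, Real.norm_eq_abs, Complex.norm_exp]
      congr 2
      simp
    have h2 : |Gr t| ≤ Real.exp (-(l * Real.cos θ * t ^ p)) := by
      rw [hGr]
      simp only [abs_mul, abs_of_pos (Real.exp_pos _)]
      calc _ ≤ Real.exp (-(l * Real.cos θ * t ^ p)) * 1 :=
            mul_le_mul_of_nonneg_left (Real.abs_sin_le_one _) (Real.exp_pos _).le
        _ = _ := mul_one _
    have h3 : -(c.re * t) ≤ ‖c‖ * t := by
      have := neg_le_of_abs_le (Complex.abs_re_le_norm c)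
      nlinarith
    have h4 : ‖G t‖ ≤ Real.exp (-(l * Real.cos θ * t ^ p)) * Real.exp (‖c‖ * t) := by
      rw [h1]
      exact mul_le_mul h2 (Real.exp_le_exp.mpr h3) (Real.exp_pos _).le (Real.exp_pos _).le
    have h5 : Real.exp (-(l * Real.cos θ * t ^ p)) * Real.exp (‖c‖ * t)
        ≤ Real.exp ‖c‖ * Real.exp (-(K * t ^ p)) := by
      rw [← Real.exp_add, ← Real.exp_add, Real.exp_le_exp, hlc]
      have h6 := htp t ht
      have h7 : ‖c‖ * t ≤ ‖c‖ * (1 + t ^ p) := mul_le_mul_of_nonneg_left h6 (norm_nonneg _)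
      have h8 : K * t ^ p ≤ K' * t ^ p := mul_le_mul_of_nonneg_right hKK h0
      nlinarith
    have h6 := hb t ht
    calc ‖G t‖ ≤ Real.exp ‖c‖ * Real.exp (-(K * t ^ p)) := h4.trans h5
      _ = Real.exp ‖c‖ / κ * (κ * Real.exp (-(K * t ^ p))) := by field_simp
      _ ≤ _ := mul_le_mul_of_nonneg_left h6 (by positivity)
  obtain ⟨δ, hδ⟩ : ∃ δ, δ = min 1 (1 / (l * Real.sin θ)) := ⟨_, rfl⟩
  have hls : 0 < l * Real.sin θ := mul_pos hl0 hsin
  have hδ0 : 0 < δ := by rw [hδ]; positivity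
  have hδ1 : δ ≤ 1 := by rw [hδ]; exact min_le_left _ _
  have hδ2 : δ ≤ 1 / (l * Real.sin θ) := by rw [hδ]; exact min_le_right _ _
  have hGne : ∀ t : ℝ, 0 < t → t < δ → 0 < Complex.normSq (G t) := by
    intro t ht htd
    rw [Complex.normSq_pos, hG]
    refine mul_ne_zero ?_ (Complex.exp_ne_zero _)
    rw [Complex.ofReal_ne_zero, hGr]
    refine mul_ne_zero (Real.exp_pos _).ne' ?_
    apply ne_of_gt
    have h1 : t ^ p ≤ t := by
      have := Real.rpow_le_rpow_of_exponent_ge ht (by linarith) hp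
      simpa using this
    have h2 : 0 < t ^ p := Real.rpow_pos_of_pos ht p
    apply Real.sin_pos_of_pos_of_le_one (by positivity)
    calc l * Real.sin θ * t ^ p ≤ l * Real.sin θ * (1 / (l * Real.sin θ)) :=
          mul_le_mul_of_nonneg_left (by linarith) hls.le
      _ = 1 := by field_simp
  obtain ⟨h, hh⟩ : ∃ h : ℝ → ℂ, h = (Ioc 0 δ).indicator (fun t => (starRingEnd ℂ) (G t)) := ⟨_, rfl⟩
  have hwc : ContinuousOn w (Icc 0 δ) := hw.cont.mono (fun x hx => hx.1)
  have hL1 : InL1 w h := by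
    unfold InL1
    have e : (fun t : ℝ => h t * (w t : ℂ)) =
        (Ioc 0 δ).indicator (fun t => (starRingEnd ℂ) (G t) * (w t : ℂ)) := by
      funext t
      rw [hh]
      by_cases ht : t ∈ Ioc 0 δ
      · simp [indicator_of_mem ht]
      · simp [indicator_of_notMem ht]
    rw [e]
    refine (IntegrableOn.integrable_indicator ?_ measurableSet_Ioc).integrableOn
    refine (ContinuousOn.integrableOn_Icc ?_).mono_set Ioc_subset_Icc_self
    exact (Complex.continuous_conj.comp hGc).continuousOn.mul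
      (Complex.continuous_ofReal.comp_continuousOn hwc)
  obtain ⟨I, hI⟩ : ∃ I : ℝ, I = ∫ t in Ioc 0 δ, Complex.normSq (G t) := ⟨_, rfl⟩
  have hnc : Continuous (fun t => Complex.normSq (G t)) := Complex.continuous_normSq.comp hGc
  have hI0 : 0 < I := by
    rw [hI, ← intervalIntegral.integral_of_le hδ0.le]
    exact intervalIntegral.intervalIntegral_pos_of_pos_on (hnc.intervalIntegrable _ _)
      (fun x hx => hGne x hx.1 hx.2) hδ0
  obtain ⟨M, hM⟩ : ∃ M, M = Real.exp ‖c‖ / κ := ⟨_, rfl⟩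
  have hM0 : 0 < M := by rw [hM]; positivity
  rw [← hM] at hGb
  obtain ⟨n, cc, hn⟩ := hgen h hL1 (I / (2 * M)) (by positivity)
  obtain ⟨D, hD⟩ : ∃ D : ℝ → ℂ, D = fun t => h t - ∑ k ∈ Finset.range n, cc k * cpow (pw a c) k t := ⟨_, rfl⟩
  have hn' : ∫⁻ t in Ioi (0:ℝ), ENNReal.ofReal (‖D t‖ * w t) < ENNReal.ofReal (I / (2 * M)) := by
    rw [hD]; exact hn
  -- upper bound
  have hub : ‖∫ t in Ioi (0:ℝ), D t * G t‖ₑ ≤ ENNReal.ofReal (I / 2) := by
    calc ‖∫ t in Ioi (0:ℝ), D t * G t‖ₑ ≤ ∫⁻ t in Ioi (0:ℝ), ‖D t * G t‖ₑ :=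
          enorm_integral_le_lintegral_enorm _
      _ ≤ ∫⁻ t in Ioi (0:ℝ), ENNReal.ofReal M * ENNReal.ofReal (‖D t‖ * w t) := by
          apply setLIntegral_mono' measurableSet_Ioi
          intro t ht
          rw [← ENNReal.ofReal_mul hM0.le, ← ofReal_norm]
          apply ENNReal.ofReal_le_ofReal
          rw [norm_mul]
          have := mul_le_mul_of_nonneg_left (hGb t (le_of_lt ht)) (norm_nonneg (D t))
          linarith
      _ = ENNReal.ofReal M * ∫⁻ t in Ioi (0:ℝ), ENNReal.ofReal (‖D t‖ * w t) :=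
          lintegral_const_mul' _ _ ENNReal.ofReal_ne_top
      _ ≤ ENNReal.ofReal M * ENNReal.ofReal (I / (2 * M)) := by gcongr
      _ = ENNReal.ofReal (I / 2) := by
          rw [← ENNReal.ofReal_mul hM0.le]
          congr 1
          field_simp
  -- exact value
  have hhG : (fun t => h t * G t) = (Ioc 0 δ).indicator (fun t => ((Complex.normSq (G t) : ℝ) : ℂ)) := by
    funext t
    rw [hh]
    by_cases ht : t ∈ Ioc 0 δ
    · simp only [indicator_of_mem ht]
      rw [Complex.normSq_eq_conj_mul_self]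
    · simp [indicator_of_notMem ht]
  have hint1 : IntegrableOn (fun t => h t * G t) (Ioi 0) := by
    rw [hhG]
    refine (IntegrableOn.integrable_indicator ?_ measurableSet_Ioc).integrableOn
    exact (ContinuousOn.integrableOn_Icc
      (Complex.continuous_ofReal.comp hnc).continuousOn).mono_set Ioc_subset_Icc_self
  have hval1 : ∫ t in Ioi (0:ℝ), h t * G t = (I : ℂ) := by
    rw [hhG, setIntegral_indicator measurableSet_Ioc]
    have : Ioi (0:ℝ) ∩ Ioc 0 δ = Ioc 0 δ := inter_eq_right.mpr (fun x hx => hx.1)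
    rw [this, hI]
    exact integral_ofReal
  have hterm : ∀ k : ℕ, ∀ t ∈ Ioi (0:ℝ), cc k * cpow (pw a c) k t * G t =
      cc k * (C k : ℂ) * (((t ^ (a * (k + 1) - 1) *
      (Real.exp (-(l * Real.cos θ * t ^ p)) *
        Real.sin (l * Real.sin θ * t ^ p)) : ℝ)) : ℂ) := by
    intro k t ht
    rw [hCk k t ht, hG, hGr]
    simp only [pw]
    have : Complex.exp (c * t) * Complex.exp (-(c * t)) = 1 := by
      rw [← Complex.exp_add]; simp
    push_cast
    calc _ = cc k * (C k : ℂ) * (((t ^ (a * (k + 1) - 1) : ℝ) : ℂ) *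
          (Complex.exp (-(↑l * Complex.cos ↑θ * ((t ^ p : ℝ) : ℂ))) *
            Complex.sin (↑l * Complex.sin ↑θ * ((t ^ p : ℝ) : ℂ)))) *
            (Complex.exp (c * t) * Complex.exp (-(c * t))) := by ring
      _ = _ := by rw [this, mul_one]
  have hint2 : ∀ k : ℕ, IntegrableOn (fun t => cc k * cpow (pw a c) k t * G t) (Ioi 0) := by
    intro k
    rw [integrableOn_congr_fun (hterm k) measurableSet_Ioi]
    exact Integrable.const_mul (hann k).1.ofReal _
  have hval2 : ∀ k : ℕ, ∫ t in Ioi (0:ℝ), cc k * cpow (pw a c) k t * G t = 0 := by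
    intro k
    rw [setIntegral_congr_fun measurableSet_Ioi (hterm k), integral_const_mul]
    have := (hann k).2
    rw [integral_complex_ofReal, this]
    simp
  have hval : ∫ t in Ioi (0:ℝ), D t * G t = (I : ℂ) := by
    have e : (fun t => D t * G t) = fun t => h t * G t -
        ∑ k ∈ Finset.range n, cc k * cpow (pw a c) k t * G t := by
      funext t
      rw [hD]
      simp only [sub_mul, Finset.sum_mul]
    rw [e, integral_sub hint1 (integrable_finsetSum _ (fun k _ => hint2 k)), hval1,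
      integral_finsetSum _ (fun k _ => hint2 k)]
    simp [hval2]
  rw [hval, ← ofReal_norm] at hub
  rw [ENNReal.ofReal_le_ofReal_iff (by positivity)] at hub
  rw [Complex.norm_real, Real.norm_of_nonneg hI0.le] at hub
  linarith

end Pool.Agent.Helper5.PG
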