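import Mathlib
import Pool.Agent.Helper5.Pg.Defs
import Pool.Agent.Helper5.Pg.GenOfBound
import Pool.Agent.Helper5.Pg.GenRadical
import Pool.Agent.Helper5.Pg.NotGen
import Pool.Agent.Helper5.Pg.ExpwWeight
import Pool.Agent.Helper5.Pg.ExpwBound

set_option autoImplicit false

open MeasureTheory Set Filter Topology

namespace Pool.Agent.Helper5.PG

theorem expw_iff (p : ℝ) (hp : 1 < p) (a : ℝ) (ha : 0 < a) (c : ℂ) :
    IsPolyGen (fun t : ℝ => Real.exp (-(t ^ p))) (pw a c) ↔ a ≤ 2 * p := by
  obtain ⟨hw, hr⟩ := expw_weight p hp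
  constructor
  · intro h
    by_contra hlt
    push Not at hlt
    exact not_gen _ hw a ha c p 1 1 hp.le (by linarith) one_pos
      (fun t _ => by simp) h
  · intro h
    obtain ⟨K, hK⟩ := expw_bound p a hp ha h c.re
    exact gen_of_bound _ hw a ha c (1 / 2) K (by norm_num) hK

end Pool.Agent.Helper5.PG
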